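import Mathlib

/-!
# MP_859019, Theorem B, block SC

`(c(v) - 1)(c(y) - 1) ≤ (2^(p-1) - 1)(c(v y) - 1)` for `c(v) = ((1+v)^p + (1-v)^p)/2`, `p ≥ 3`,
`v, y ∈ [0, 1]`.
-/

set_option autoImplicit false

namespace Pool.Agent.QB

/-- `((1 + v)^p + (1 - v)^p) / 2` -/
noncomputable def cc (p v : ℝ) : ℝ := ((1 + v) ^ p + (1 - v) ^ p) / 2

/-- Majorisation for `x ^ r`, `r ≥ 1`. -/
lemma rpow_major (r x₁ x₂ y₁ y₂ : ℝ) (hr : 1 ≤ r) (h2 : 0 ≤ x₂) (h12 : x₂ ≤ y₁) (h11 : y₁ ≤ x₁)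
    (hs : x₁ + x₂ = y₁ + y₂) : y₁ ^ r + y₂ ^ r ≤ x₁ ^ r + x₂ ^ r := by
  have hc := convexOn_rpow hr
  rcases eq_or_lt_of_le (h12.trans h11) with h | h
  · have e1 : y₁ = x₁ := le_antisymm h11 (h ▸ h12)
    have e2 : y₂ = x₂ := by linarith
    rw [e1, e2]
  · have hd : 0 < x₁ - x₂ := by linarith
    set t := (y₁ - x₂) / (x₁ - x₂) with ht
    have t0 : 0 ≤ t := div_nonneg (by linarith) hd.le
    have t1 : 0 ≤ 1 - t := by
      rw [ht, sub_nonneg, div_le_one hd]; linarith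
    have hy1 : y₁ = t * x₁ + (1 - t) * x₂ := by
      rw [ht]; field_simp; ring
    have hy2 : y₂ = (1 - t) * x₁ + t * x₂ := by
      have : y₂ = x₁ + x₂ - y₁ := by linarith
      rw [this]
      nth_rewrite 1 [hy1]
      ring
    have m1 : x₁ ∈ Set.Ici (0 : ℝ) := by simp only [Set.mem_Ici]; linarith
    have m2 : x₂ ∈ Set.Ici (0 : ℝ) := h2
    have k1 := hc.2 m1 m2 t0 t1 (by ring)
    have k2 := hc.2 m1 m2 t1 t0 (by ring)
    simp only [smul_eq_mul] at k1 k2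
    rw [← hy1] at k1
    rw [← hy2] at k2
    linarith

/-- `g r v = (1+v)^r + (1-v)^r` -/
noncomputable def gg (r v : ℝ) : ℝ := (1 + v) ^ r + (1 - v) ^ r

lemma gg_pos (r v : ℝ) (h0 : 0 ≤ v) (h1 : v ≤ 1) : 0 < gg r v := by
  unfold gg
  have := Real.rpow_pos_of_pos (show (0 : ℝ) < 1 + v by linarith) r
  have := Real.rpow_nonneg (show (0 : ℝ) ≤ 1 - v by linarith) r
  linarith

/-- `g(b y)/g(b) ≤ g(a y)/g(a)` for `a ≤ b`. -/
lemma gg_cross (r a b y : ℝ) (hr : 1 ≤ r) (ha : 0 ≤ a) (hab : a ≤ b) (hb : b ≤ 1) (hy0 : 0 ≤ y)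
    (hy1 : y ≤ 1) : gg r (b * y) * gg r a ≤ gg r (a * y) * gg r b := by
  unfold gg
  have hay : a * y ≤ 1 := by nlinarith
  have hby : b * y ≤ 1 := by nlinarith
  have hay0 : 0 ≤ a * y := by positivity
  have hb0 : 0 ≤ b := ha.trans hab
  have hby0 : 0 ≤ b * y := by positivity
  have e : ∀ x z : ℝ, 0 ≤ x → 0 ≤ z → x ^ r * z ^ r = (x * z) ^ r := fun x z hx hz =>
    (Real.mul_rpow hx hz).symm
  have k1 := rpow_major r ((1 + a * y) * (1 + b)) ((1 - a * y) * (1 - b)) ((1 + b * y) * (1 + a))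
    ((1 - b * y) * (1 - a)) hr (mul_nonneg (by linarith) (by linarith)) (by nlinarith)
    (by nlinarith) (by ring)
  have k2 := rpow_major r ((1 - a * y) * (1 + b)) ((1 + a * y) * (1 - b)) ((1 + b * y) * (1 - a))
    ((1 - b * y) * (1 + a)) hr (mul_nonneg (by linarith) (by linarith)) (by nlinarith)
    (by nlinarith) (by ring)
  rw [← e _ _ (by linarith) (by linarith), ← e _ _ (by linarith) (by linarith),
    ← e _ _ (by linarith) (by linarith), ← e _ _ (by linarith) (by linarith)] at k1 k2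
  nlinarith [k1, k2]

lemma cc_hasDeriv (p v : ℝ) (hp : 1 ≤ p) :
    HasDerivAt (cc p) (p / 2 * ((1 + v) ^ (p - 1) - (1 - v) ^ (p - 1))) v := by
  have h1 : HasDerivAt (fun v : ℝ => (1 + v) ^ p) (1 * p * (1 + v) ^ (p - 1)) v :=
    ((hasDerivAt_id v).const_add 1).rpow_const (Or.inr hp)
  have h2 : HasDerivAt (fun v : ℝ => (1 - v) ^ p) (-1 * p * (1 - v) ^ (p - 1)) v :=
    ((hasDerivAt_id v).const_sub 1).rpow_const (Or.inr hp)
  have h := (h1.add h2).div_const 2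
  refine (h.congr_deriv ?_)
  ring

lemma cc_hasDeriv2 (p v : ℝ) (hp : 2 ≤ p) :
    HasDerivAt (fun v : ℝ => p / 2 * ((1 + v) ^ (p - 1) - (1 - v) ^ (p - 1)))
      (p * (p - 1) / 2 * gg (p - 2) v) v := by
  have hp' : 1 ≤ p - 1 := by linarith
  have h1 : HasDerivAt (fun v : ℝ => (1 + v) ^ (p - 1)) (1 * (p - 1) * (1 + v) ^ (p - 1 - 1)) v :=
    ((hasDerivAt_id v).const_add 1).rpow_const (Or.inr hp')
  have h2 : HasDerivAt (fun v : ℝ => (1 - v) ^ (p - 1)) (-1 * (p - 1) * (1 - v) ^ (p - 1 - 1)) v :=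
    ((hasDerivAt_id v).const_sub 1).rpow_const (Or.inr hp')
  have h := (h1.sub h2).const_mul (p / 2)
  refine (h.congr_deriv ?_)
  have e : p - 1 - 1 = p - 2 := by ring
  rw [e, gg]
  ring

lemma cc_zero (p : ℝ) : cc p 0 = 1 := by simp [cc]

lemma cc_one (p : ℝ) (hp : 0 < p) : cc p 1 = 2 ^ (p - 1) := by
  unfold cc
  rw [show (1 : ℝ) - 1 = 0 by ring, Real.zero_rpow hp.ne', show (1 : ℝ) + 1 = 2 by ring,
    Real.rpow_sub (by norm_num), Real.rpow_one]
  ring

theorem sc_ineq (p v y : ℝ) (hp : 3 ≤ p) (hv0 : 0 ≤ v) (hv1 : v ≤ 1) (hy0 : 0 ≤ y) (hy1 : y ≤ 1) :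
    (cc p v - 1) * (cc p y - 1) ≤ (2 ^ (p - 1) - 1) * (cc p (v * y) - 1) := by
  rw [← cc_one p (by linarith)]
  rcases eq_or_lt_of_le hv0 with h | hv0'
  · rw [← h, zero_mul, cc_zero]; simp
  rcases eq_or_lt_of_le hv1 with h | hv1'
  · rw [h, one_mul]
  by_contra hcon
  push Not at hcon
  -- the function and its derivatives
  set A : ℝ := cc p 1 - 1 with hA
  set B : ℝ := cc p y - 1 with hB
  set χ : ℝ → ℝ := fun v => A * (cc p (v * y) - 1) - B * (cc p v - 1) with hχ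
  set c1 : ℝ → ℝ := fun v => p / 2 * ((1 + v) ^ (p - 1) - (1 - v) ^ (p - 1)) with hc1
  set c2 : ℝ → ℝ := fun v => p * (p - 1) / 2 * gg (p - 2) v with hc2
  set χ1 : ℝ → ℝ := fun v => A * (y * c1 (v * y)) - B * c1 v with hχ1
  set χ2 : ℝ → ℝ := fun v => A * (y * (y * c2 (v * y))) - B * c2 v with hχ2
  have d1 : ∀ v, HasDerivAt χ (χ1 v) v := by
    intro v
    have a1 : HasDerivAt (fun v : ℝ => v * y) y v := by simpa using (hasDerivAt_id v).mul_const y
    have a2 : HasDerivAt (fun v => cc p (v * y)) (c1 (v * y) * y) v :=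
      HasDerivAt.comp (h₂ := cc p) v (cc_hasDeriv p (v * y) (by linarith)) a1
    have a3 := cc_hasDeriv p v (by linarith)
    have a4 := ((a2.sub_const 1).const_mul A).sub ((a3.sub_const 1).const_mul B)
    refine a4.congr_deriv ?_
    simp only [hχ1, hc1]; ring
  have d2 : ∀ v, HasDerivAt χ1 (χ2 v) v := by
    intro v
    have a1 : HasDerivAt (fun v : ℝ => v * y) y v := by simpa using (hasDerivAt_id v).mul_const y
    have a2 : HasDerivAt (fun v => c1 (v * y)) (c2 (v * y) * y) v :=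
      HasDerivAt.comp (h₂ := c1) v (cc_hasDeriv2 p (v * y) (by linarith)) a1
    have a3 : HasDerivAt c1 (c2 v) v := cc_hasDeriv2 p v (by linarith)
    have a4 := ((a2.const_mul y).const_mul A).sub (a3.const_mul B)
    refine a4.congr_deriv ?_
    simp only [hχ2]; ring
  have z0 : χ 0 = 0 := by simp [hχ, cc_zero]
  have z1 : χ 1 = 0 := by simp only [hχ, one_mul]; rw [← hA, ← hB]; ring
  have z2 : χ1 0 = 0 := by simp [hχ1, hc1]
  have hv : χ v < 0 := by
    simp only [hχ]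
    have := hcon
    linarith [mul_comm B (cc p v - 1)]
  have cχ : Continuous χ := continuous_iff_continuousAt.2 fun v => (d1 v).continuousAt
  have cχ1 : Continuous χ1 := continuous_iff_continuousAt.2 fun v => (d2 v).continuousAt
  obtain ⟨ξ₁, h1, e1⟩ := exists_hasDerivAt_eq_slope χ χ1 hv0' cχ.continuousOn (fun x _ => d1 x)
  obtain ⟨ξ₂, h2, e2⟩ := exists_hasDerivAt_eq_slope χ χ1 hv1' cχ.continuousOn (fun x _ => d1 x)
  have s1 : χ1 ξ₁ < 0 := by
    rw [e1, z0]; exact div_neg_of_neg_of_pos (by linarith) (by linarith)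
  have s2 : 0 < χ1 ξ₂ := by
    rw [e2, z1]; exact div_pos (by linarith) (by linarith)
  obtain ⟨a, ha, ea⟩ := exists_hasDerivAt_eq_slope χ1 χ2 h1.1 cχ1.continuousOn (fun x _ => d2 x)
  obtain ⟨b, hb, eb⟩ := exists_hasDerivAt_eq_slope χ1 χ2 (h1.2.trans h2.1) cχ1.continuousOn
    (fun x _ => d2 x)
  have sa : χ2 a < 0 := by
    rw [ea, z2]; exact div_neg_of_neg_of_pos (by linarith) (by linarith [ha.1, h1.1])
  have sb : 0 < χ2 b := by
    rw [eb]; exact div_pos (by linarith) (by linarith [h1.2, h2.1])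
  have hab : a ≤ b := (ha.2.trans hb.1).le
  have hb1 : b ≤ 1 := (hb.2.trans h2.2).le
  have ha0 : 0 ≤ a := ha.1.le
  have cross := gg_cross (p - 2) a b y (by linarith) ha0 hab hb1 hy0 hy1
  have ga := gg_pos (p - 2) a ha0 (hab.trans hb1)
  have gb := gg_pos (p - 2) b (ha0.trans hab) hb1
  have hpp : 0 < p * (p - 1) / 2 := by
    have : 0 < p := by linarith
    have : 0 < p - 1 := by linarith
    positivity
  have hA0 : 0 ≤ A := by
    rw [hA, cc_one p (by linarith), sub_nonneg]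
    exact Real.one_le_rpow (by norm_num) (by linarith)
  simp only [hχ2, hc2] at sa sb
  have sa' : A * y ^ 2 * gg (p - 2) (a * y) < B * gg (p - 2) a := by
    have : p * (p - 1) / 2 * (A * y ^ 2 * gg (p - 2) (a * y) - B * gg (p - 2) a) < 0 := by
      nlinarith [sa]
    have := neg_of_mul_neg_right this hpp.le
    linarith
  have sb' : B * gg (p - 2) b < A * y ^ 2 * gg (p - 2) (b * y) := by
    have : 0 < p * (p - 1) / 2 * (A * y ^ 2 * gg (p - 2) (b * y) - B * gg (p - 2) b) := by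
      nlinarith [sb]
    have := (mul_pos_iff_of_pos_left hpp).1 this
    linarith
  have hAy : 0 ≤ A * y ^ 2 := by positivity
  have t1 : A * y ^ 2 * gg (p - 2) (a * y) * gg (p - 2) b < B * gg (p - 2) a * gg (p - 2) b :=
    mul_lt_mul_of_pos_right sa' gb
  have t2 : B * gg (p - 2) b * gg (p - 2) a < A * y ^ 2 * gg (p - 2) (b * y) * gg (p - 2) a :=
    mul_lt_mul_of_pos_right sb' ga
  have t3 := mul_le_mul_of_nonneg_left cross hAy
  nlinarith [t1, t2, t3]

end Pool.Agent.QB
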