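import Mathlib

/-!
# MP_859019, Theorem B, block DD

The `n`-th divided difference of `z ^ q` at `n + 1` positive nodes, as a contour integral, is
real and nonnegative for `q > n - 1`.
-/

set_option autoImplicit false

open scoped BigOperators Real Topology Interval
open Complex MeasureTheory Set Filter

namespace Pool.Agent.QB

lemma node_ne (c ρ : ℝ) (t : ℝ) (ht : |t - c| < ρ) (z : ℂ) (hz : ρ ≤ ‖z - (c : ℂ)‖) :
    z - (t : ℂ) ≠ 0 := by
  intro h
  have : z = (t : ℂ) := sub_eq_zero.1 h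
  rw [this, ← ofReal_sub, norm_real, Real.norm_eq_abs] at hz
  linarith

lemma node_norm (c ρ : ℝ) (t : ℝ) (ht : |t - c| < ρ) (z : ℂ) :
    ‖z - (c : ℂ)‖ - ρ ≤ ‖z - (t : ℂ)‖ := by
  have h1 : z - (c : ℂ) = (z - (t : ℂ)) + ((t - c : ℝ) : ℂ) := by push_cast; ring
  have h2 := norm_add_le (z - (t : ℂ)) ((t - c : ℝ) : ℂ)
  rw [← h1, norm_real, Real.norm_eq_abs] at h2
  linarith

/-- For at least two nodes inside the circle the integral of the inverse of the product is zero. -/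
lemma integral_inv_prod (n : ℕ) (c ρ : ℝ) (hρ : 0 < ρ) (x : Fin (n + 2) → ℝ)
    (hx : ∀ i, |x i - c| < ρ) :
    (∮ z in C((c : ℂ), ρ), (∏ i, (z - (x i : ℂ)))⁻¹) = 0 := by
  set f : ℂ → ℂ := fun z => (∏ i, (z - (x i : ℂ)))⁻¹ with hf
  have hne : ∀ z : ℂ, ρ ≤ ‖z - (c : ℂ)‖ → (∏ i, (z - (x i : ℂ))) ≠ 0 := fun z hz =>
    Finset.prod_ne_zero_iff.2 fun i _ => node_ne c ρ (x i) (hx i) z hz
  have hdiff : ∀ z : ℂ, ρ ≤ ‖z - (c : ℂ)‖ → DifferentiableAt ℂ f z := by
    intro z hz
    refine DifferentiableAt.inv ?_ (hne z hz)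
    fun_prop
  have hR : ∀ R : ℝ, ρ ≤ R → (∮ z in C((c : ℂ), R), f z) = ∮ z in C((c : ℂ), ρ), f z := by
    intro R hR
    refine circleIntegral_eq_of_differentiable_on_annulus_off_countable hρ hR countable_empty ?_ ?_
    · intro z hz
      refine (hdiff z ?_).continuousAt.continuousWithinAt
      have := hz.2
      rw [Metric.mem_ball, dist_eq_norm, not_lt] at this
      exact this
    · intro z hz
      refine hdiff z ?_
      have := hz.1.2
      rw [Metric.mem_closedBall, dist_eq_norm, not_le] at this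
      exact this.le
  have hb : ∀ t : ℝ, 1 ≤ t → ‖∮ z in C((c : ℂ), ρ), f z‖ * t ≤ 2 * π * (ρ + 1) := by
    intro t ht
    have htp : 0 < t := by linarith
    rw [← hR (ρ + t) (by linarith)]
    have h1 : ∀ z ∈ Metric.sphere (c : ℂ) (ρ + t), ‖f z‖ ≤ 1 / t ^ 2 := by
      intro z hz
      rw [mem_sphere_iff_norm] at hz
      have hi : ∀ i, t ≤ ‖z - (x i : ℂ)‖ := by
        intro i
        have := node_norm c ρ (x i) (hx i) z
        rw [hz] at this
        linarith
      have hprod : t ^ (n + 2) ≤ ‖∏ i, (z - (x i : ℂ))‖ := by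
        rw [norm_prod]
        calc t ^ (n + 2) = ∏ _i : Fin (n + 2), t := by simp
          _ ≤ _ := Finset.prod_le_prod (fun _ _ => htp.le) fun i _ => hi i
      have h2 : t ^ 2 ≤ ‖∏ i, (z - (x i : ℂ))‖ :=
        (pow_le_pow_right₀ ht (by omega)).trans hprod
      rw [hf]
      simp only [norm_inv]
      rw [one_div]
      exact inv_anti₀ (by positivity) h2
    have h2 := circleIntegral.norm_integral_le_of_norm_le_const (by linarith : 0 ≤ ρ + t) h1
    have h3 : 2 * π * (ρ + t) * (1 / t ^ 2) * t ≤ 2 * π * (ρ + 1) := by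
      have : 2 * π * (ρ + t) * (1 / t ^ 2) * t = 2 * π * ((ρ + t) / t) := by
        field_simp
      rw [this]
      have h4 : (ρ + t) / t ≤ ρ + 1 := by
        rw [div_le_iff₀ htp]; nlinarith
      have : 0 < 2 * π := by positivity
      exact mul_le_mul_of_nonneg_left h4 this.le
    exact (mul_le_mul_of_nonneg_right h2 htp.le).trans h3
  have hz : ‖∮ z in C((c : ℂ), ρ), f z‖ = 0 := by
    by_contra hK
    have hK0 : 0 < ‖∮ z in C((c : ℂ), ρ), f z‖ := lt_of_le_of_ne (norm_nonneg _) (Ne.symm hK)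
    set K := ‖∮ z in C((c : ℂ), ρ), f z‖
    have h1 := hb (max 1 ((2 * π * (ρ + 1) + 1) / K)) (le_max_left _ _)
    have h2 : (2 * π * (ρ + 1) + 1) / K ≤ max 1 ((2 * π * (ρ + 1) + 1) / K) := le_max_right _ _
    have h3 : K * ((2 * π * (ρ + 1) + 1) / K) = 2 * π * (ρ + 1) + 1 := by
      field_simp
    have h4 := mul_le_mul_of_nonneg_left h2 hK0.le
    linarith
  exact norm_eq_zero.1 hz

lemma re_pos_of (a b c ρ : ℝ) (hb : 0 ≤ b) (hab : 0 < a + b * (c - ρ)) (z : ℂ)
    (hz : ‖z - (c : ℂ)‖ ≤ ρ) : 0 < ((a : ℂ) + b * z).re := by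
  have h1 : |(z - (c : ℂ)).re| ≤ ‖z - (c : ℂ)‖ := abs_re_le_norm _
  have h2 : (z - (c : ℂ)).re = z.re - c := by simp
  have h3 : c - ρ ≤ z.re := by
    rw [h2] at h1
    have := neg_abs_le (z.re - c)
    linarith
  have h4 : ((a : ℂ) + b * z).re = a + b * z.re := by simp
  rw [h4]
  nlinarith

/-- Fubini for a circle integral and an integral over `[0, 1]`. -/
lemma circle_swap (c : ℂ) (ρ : ℝ) (hρ : 0 ≤ ρ) (F : ℝ → ℂ → ℂ)
    (hF : ContinuousOn (fun p : ℝ × ℂ => F p.1 p.2) (Icc (0 : ℝ) 1 ×ˢ Metric.sphere c ρ)) :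
    (∮ z in C(c, ρ), (∫ θ in (0 : ℝ)..1, F θ z)) = ∫ θ in (0 : ℝ)..1, ∮ z in C(c, ρ), F θ z := by
  simp only [circleIntegral]
  have h1 : ∀ φ : ℝ, deriv (circleMap c ρ) φ • (∫ θ in (0 : ℝ)..1, F θ (circleMap c ρ φ)) =
      ∫ θ in (0 : ℝ)..1, deriv (circleMap c ρ) φ • F θ (circleMap c ρ φ) := fun φ =>
    (intervalIntegral.integral_smul _ _).symm
  simp_rw [h1]
  refine intervalIntegral_intervalIntegral_swap ?_
  have hc : ContinuousOn (Function.uncurry fun φ θ : ℝ =>
      deriv (circleMap c ρ) φ • F θ (circleMap c ρ φ)) (Icc (0 : ℝ) (2 * π) ×ˢ Icc (0 : ℝ) 1) := by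
    have h2 : ContinuousOn (fun p : ℝ × ℝ => F p.2 (circleMap c ρ p.1))
        (Icc (0 : ℝ) (2 * π) ×ˢ Icc (0 : ℝ) 1) := by
      refine hF.comp (f := fun p : ℝ × ℝ => ((p.2, circleMap c ρ p.1) : ℝ × ℂ)) ?_ ?_
      · refine Continuous.continuousOn ?_
        exact continuous_snd.prodMk ((continuous_circleMap c ρ).comp continuous_fst)
      · intro p hp
        exact ⟨hp.2, circleMap_mem_sphere c hρ p.1⟩
    have h3 : Continuous (fun p : ℝ × ℝ => deriv (circleMap c ρ) p.1) := by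
      simp only [deriv_circleMap]
      exact ((continuous_circleMap 0 ρ).comp continuous_fst).mul continuous_const
    exact h3.continuousOn.smul h2
  have hK : IsCompact (Icc (0 : ℝ) (2 * π) ×ˢ Icc (0 : ℝ) 1) := isCompact_Icc.prod isCompact_Icc
  refine (hc.integrableOn_compact hK).mono_set ?_
  rw [uIoc_of_le (by positivity), uIoc_of_le zero_le_one]
  exact prod_mono Ioc_subset_Icc_self Ioc_subset_Icc_self

lemma dd_aux (n : ℕ) : ∀ (q a b c ρ : ℝ), (n : ℝ) - 1 < q → 0 < ρ → 0 ≤ b →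
    0 < a + b * (c - ρ) → ∀ x : Fin (n + 1) → ℝ, (∀ i, |x i - c| < ρ) →
    ∃ e : ℝ, 0 ≤ e ∧ (2 * π * I : ℂ)⁻¹ *
      (∮ z in C((c : ℂ), ρ), ((a : ℂ) + b * z) ^ (q : ℂ) / ∏ i, (z - (x i : ℂ))) = (e : ℂ) := by
  induction n with
  | zero =>
    intro q a b c ρ _ hρ hb hab x hx
    have hslit : ∀ z : ℂ, ‖z - (c : ℂ)‖ ≤ ρ → (a : ℂ) + b * z ∈ slitPlane := fun z hz =>
      Or.inl (re_pos_of a b c ρ hb hab z hz)
    have hd : DifferentiableOn ℂ (fun z : ℂ => ((a : ℂ) + b * z) ^ (q : ℂ))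
        (Metric.closedBall (c : ℂ) ρ) := by
      intro z hz
      rw [Metric.mem_closedBall, dist_eq_norm] at hz
      refine DifferentiableAt.differentiableWithinAt ?_
      refine DifferentiableAt.cpow ?_ ?_ (hslit z hz)
      · fun_prop
      · fun_prop
    have hw : (x 0 : ℂ) ∈ Metric.ball (c : ℂ) ρ := by
      rw [Metric.mem_ball, dist_eq_norm, ← ofReal_sub, norm_real, Real.norm_eq_abs]
      exact hx 0
    have h := hd.circleIntegral_sub_inv_smul hw
    have hx0 : 0 < a + b * x 0 := by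
      have := re_pos_of a b c ρ hb hab (x 0 : ℂ) (by
        rw [← ofReal_sub, norm_real, Real.norm_eq_abs]; exact (hx 0).le)
      simpa using this
    refine ⟨(a + b * x 0) ^ q, Real.rpow_nonneg hx0.le q, ?_⟩
    have e1 : (∮ z in C((c : ℂ), ρ), ((a : ℂ) + b * z) ^ (q : ℂ) / ∏ i, (z - (x i : ℂ)))
        = ∮ z in C((c : ℂ), ρ), (z - (x 0 : ℂ))⁻¹ • ((a : ℂ) + b * z) ^ (q : ℂ) := by
      refine circleIntegral.integral_congr hρ.le ?_
      intro z _
      simp [div_eq_inv_mul]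
    rw [e1, h, smul_eq_mul, ← mul_assoc, inv_mul_cancel₀ two_pi_I_ne_zero, one_mul]
    rw [ofReal_cpow hx0.le]
    push_cast
    rfl
  | succ n ih =>
    intro q a b c ρ hq hρ hb hab x hx
    have hn0 : (0 : ℝ) ≤ n := Nat.cast_nonneg n
    have hq0 : 0 < q := by push_cast at hq; linarith
    have hq1 : (n : ℝ) - 1 < q - 1 := by push_cast at hq; linarith
    set x0 : ℝ := x 0 with hx0def
    have hx0 : 0 < a + b * x0 := by
      have := re_pos_of a b c ρ hb hab (x0 : ℂ) (by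
        rw [← ofReal_sub, norm_real, Real.norm_eq_abs]; exact (hx 0).le)
      simpa using this
    -- the affine functions
    set W : ℝ → ℂ → ℂ := fun θ z => ((a + b * x0 * (1 - θ) : ℝ) : ℂ) + ((b * θ : ℝ) : ℂ) * z
      with hW
    have hab' : ∀ θ : ℝ, 0 ≤ θ → θ ≤ 1 →
        0 < (a + b * x0 * (1 - θ)) + (b * θ) * (c - ρ) := by
      intro θ h0 h1
      have e : (a + b * x0 * (1 - θ)) + (b * θ) * (c - ρ)
          = (1 - θ) * (a + b * x0) + θ * (a + b * (c - ρ)) := by ring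
      rw [e]
      rcases eq_or_lt_of_le h0 with h | h
      · rw [← h]; simpa using hx0
      · have := mul_pos h hab
        have := mul_nonneg (sub_nonneg.2 h1) hx0.le
        linarith
    have hslit : ∀ θ : ℝ, 0 ≤ θ → θ ≤ 1 → ∀ z : ℂ, ‖z - (c : ℂ)‖ ≤ ρ → W θ z ∈ slitPlane := by
      intro θ h0 h1 z hz
      exact Or.inl (re_pos_of _ _ c ρ (mul_nonneg hb h0) (hab' θ h0 h1) z hz)
    set P : ℂ → ℂ := fun z => ∏ i : Fin (n + 1), (z - (x i.succ : ℂ)) with hP
    have hPne : ∀ z ∈ Metric.sphere (c : ℂ) ρ, P z ≠ 0 := by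
      intro z hz
      rw [mem_sphere_iff_norm] at hz
      exact Finset.prod_ne_zero_iff.2 fun i _ => node_ne c ρ _ (hx i.succ) z hz.ge
    have hx0ne : ∀ z ∈ Metric.sphere (c : ℂ) ρ, z - (x0 : ℂ) ≠ 0 := by
      intro z hz
      rw [mem_sphere_iff_norm] at hz
      exact node_ne c ρ _ (hx 0) z hz.ge
    have hprod : ∀ z : ℂ, ∏ i, (z - (x i : ℂ)) = (z - (x0 : ℂ)) * P z := fun z =>
      Fin.prod_univ_succ _
    set F : ℝ → ℂ → ℂ := fun θ z => ((b * q : ℝ) : ℂ) * (W θ z ^ ((q - 1 : ℝ) : ℂ) / P z) with hF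
    set C0 : ℂ := ((a + b * x0 : ℝ) : ℂ) ^ (q : ℂ) with hC0
    have hPc : Continuous P := by
      simp only [hP]; fun_prop
    have hFc : ContinuousOn (fun p : ℝ × ℂ => F p.1 p.2)
        (Icc (0 : ℝ) 1 ×ˢ Metric.sphere (c : ℂ) ρ) := by
      rintro ⟨θ, z⟩ ⟨hθ, hz⟩
      refine ContinuousAt.continuousWithinAt ?_
      refine ContinuousAt.mul continuousAt_const (ContinuousAt.div ?_ ?_ (hPne z hz))
      · refine ContinuousAt.cpow ?_ continuousAt_const ?_
        · refine Continuous.continuousAt ?_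
          simp only [hW]
          fun_prop
        · exact hslit θ hθ.1 hθ.2 z (mem_sphere_iff_norm.1 hz).le
      · exact (hPc.comp continuous_snd).continuousAt
    -- the fundamental theorem of calculus
    have key : ∀ z ∈ Metric.sphere (c : ℂ) ρ,
        ((a : ℂ) + b * z) ^ (q : ℂ) / ∏ i, (z - (x i : ℂ)) - C0 * (∏ i, (z - (x i : ℂ)))⁻¹
          = ∫ θ in (0 : ℝ)..1, F θ z := by
      intro z hz
      have hz' := (mem_sphere_iff_norm.1 hz).le
      have hd : ∀ θ ∈ uIcc (0 : ℝ) 1, HasDerivAt (fun θ : ℝ => W θ z ^ (q : ℂ))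
          ((q : ℂ) * W θ z ^ ((q : ℂ) - 1) * ((b : ℂ) * (z - x0))) θ := by
        intro θ hθ
        rw [uIcc_of_le zero_le_one] at hθ
        have h1 : HasDerivAt (fun t : ℂ => ((a : ℂ) + b * x0 * (1 - t)) + (b * t) * z)
            ((b : ℂ) * (z - x0)) (θ : ℂ) := by
          have h2 : HasDerivAt (fun t : ℂ => ((a : ℂ) + b * x0 * (1 - t)))
              (b * x0 * (-1)) (θ : ℂ) :=
            (((hasDerivAt_id (θ : ℂ)).const_sub 1).const_mul (b * x0 : ℂ)).const_add _
          have h3 : HasDerivAt (fun t : ℂ => (b * t) * z) (b * 1 * z) (θ : ℂ) :=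
            ((hasDerivAt_id (θ : ℂ)).const_mul (b : ℂ)).mul_const z
          refine (h2.add h3).congr_deriv ?_
          ring
        have h4 : ((a : ℂ) + b * x0 * (1 - (θ : ℂ))) + (b * (θ : ℂ)) * z ∈ slitPlane := by
          have := hslit θ hθ.1 hθ.2 z hz'
          simp only [hW] at this
          push_cast at this
          exact this
        have h5 := (h1.cpow_const (c := (q : ℂ)) h4).comp_ofReal
        simp only [hW]
        push_cast
        exact h5
      have hint : IntervalIntegrable (fun θ : ℝ => (q : ℂ) * W θ z ^ ((q : ℂ) - 1) *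
          ((b : ℂ) * (z - x0))) volume 0 1 := by
        refine ContinuousOn.intervalIntegrable ?_
        rw [uIcc_of_le zero_le_one]
        intro θ hθ
        refine ContinuousAt.continuousWithinAt ?_
        refine ContinuousAt.mul (ContinuousAt.mul continuousAt_const ?_) continuousAt_const
        refine ContinuousAt.cpow ?_ continuousAt_const (hslit θ hθ.1 hθ.2 z hz')
        simp only [hW]
        fun_prop
      have h := intervalIntegral.integral_eq_sub_of_hasDerivAt hd hint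
      have e1 : W 1 z = (a : ℂ) + b * z := by simp [hW]
      have e0 : W 0 z = ((a + b * x0 : ℝ) : ℂ) := by simp [hW]
      rw [e1, e0] at h
      have h6 : ∀ θ : ℝ, F θ z = ((q : ℂ) * W θ z ^ ((q : ℂ) - 1) * ((b : ℂ) * (z - x0))) *
          ((z - x0) * P z)⁻¹ := by
        intro θ
        simp only [hF]
        have := hPne z hz
        have := hx0ne z hz
        push_cast
        field_simp
      simp_rw [h6]
      rw [intervalIntegral.integral_mul_const, h, hprod, hC0]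
      ring
    -- integrate over the circle
    set G : ℝ → ℝ := fun θ => ((2 * π * I : ℂ)⁻¹ * ∮ z in C((c : ℂ), ρ), F θ z).re with hG
    have hGv : ∀ θ : ℝ, 0 ≤ θ → θ ≤ 1 →
        0 ≤ G θ ∧ (2 * π * I : ℂ)⁻¹ * (∮ z in C((c : ℂ), ρ), F θ z) = (G θ : ℂ) := by
      intro θ h0 h1
      obtain ⟨e, he, hee⟩ := ih (q - 1) (a + b * x0 * (1 - θ)) (b * θ) c ρ hq1 hρ
        (mul_nonneg hb h0) (hab' θ h0 h1) (fun i => x i.succ) (fun i => hx i.succ)
      have h2 : (2 * π * I : ℂ)⁻¹ * (∮ z in C((c : ℂ), ρ), F θ z) = ((b * q * e : ℝ) : ℂ) := by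
        simp only [hF]
        rw [circleIntegral.integral_const_mul]
        have h3 : (2 * π * I : ℂ)⁻¹ * (((b * q : ℝ) : ℂ) *
            (∮ z in C((c : ℂ), ρ), W θ z ^ ((q - 1 : ℝ) : ℂ) / P z)) =
            ((b * q : ℝ) : ℂ) * ((2 * π * I : ℂ)⁻¹ *
            (∮ z in C((c : ℂ), ρ), W θ z ^ ((q - 1 : ℝ) : ℂ) / P z)) := by ring
        rw [h3, hee]
        push_cast
        ring
      have h4 : G θ = b * q * e := by
        simp only [hG]; rw [h2, ofReal_re]
      refine ⟨?_, ?_⟩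
      · rw [h4]; exact mul_nonneg (mul_nonneg hb hq0.le) he
      · rw [h2, h4]
    have hc1 : CircleIntegrable (fun z => ((a : ℂ) + b * z) ^ (q : ℂ) / ∏ i, (z - (x i : ℂ)))
        (c : ℂ) ρ := by
      refine ContinuousOn.circleIntegrable hρ.le ?_
      intro z hz
      refine ContinuousAt.continuousWithinAt (ContinuousAt.div ?_ ?_ ?_)
      · refine ContinuousAt.cpow ?_ continuousAt_const ?_
        · fun_prop
        · exact Or.inl (re_pos_of a b c ρ hb hab z (mem_sphere_iff_norm.1 hz).le)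
      · fun_prop
      · rw [hprod]; exact mul_ne_zero (hx0ne z hz) (hPne z hz)
    have hc2 : CircleIntegrable (fun z => C0 * (∏ i, (z - (x i : ℂ)))⁻¹) (c : ℂ) ρ := by
      refine ContinuousOn.circleIntegrable hρ.le ?_
      intro z hz
      refine ContinuousAt.continuousWithinAt (ContinuousAt.mul continuousAt_const
        (ContinuousAt.inv₀ ?_ ?_))
      · fun_prop
      · rw [hprod]; exact mul_ne_zero (hx0ne z hz) (hPne z hz)
    have hmain : (∮ z in C((c : ℂ), ρ), ((a : ℂ) + b * z) ^ (q : ℂ) / ∏ i, (z - (x i : ℂ)))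
        = ∫ θ in (0 : ℝ)..1, ∮ z in C((c : ℂ), ρ), F θ z := by
      rw [← circle_swap (c : ℂ) ρ hρ.le F hFc, ← circleIntegral.integral_congr hρ.le key,
        circleIntegral.integral_sub hc1 hc2, circleIntegral.integral_const_mul,
        integral_inv_prod n c ρ hρ x hx, mul_zero, sub_zero]
    refine ⟨∫ θ in (0 : ℝ)..1, G θ, ?_, ?_⟩
    · refine intervalIntegral.integral_nonneg zero_le_one ?_
      intro θ hθ
      exact (hGv θ hθ.1 hθ.2).1
    · rw [hmain, ← intervalIntegral.integral_const_mul, ← intervalIntegral.integral_ofReal]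
      refine intervalIntegral.integral_congr ?_
      intro θ hθ
      rw [uIcc_of_le zero_le_one] at hθ
      exact (hGv θ hθ.1 hθ.2).2

/-- BLOCK DD. The `n`-th divided difference of `z ^ q` at `n + 1` positive nodes is `≥ 0` for
`q > n - 1`. -/
theorem dd_pos (n : ℕ) (q c ρ : ℝ) (hq : (n : ℝ) - 1 < q) (hρ : 0 < ρ) (hc : ρ < c)
    (x : Fin (n + 1) → ℝ) (hx : ∀ i, |x i - c| < ρ) :
    ∃ e : ℝ, 0 ≤ e ∧ (2 * π * I : ℂ)⁻¹ *
      (∮ z in C(c, ρ), z ^ (q : ℂ) / ∏ i, (z - (x i : ℂ))) = (e : ℂ) := by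
  have h := dd_aux n q 0 1 c ρ hq hρ zero_le_one (by linarith) x hx
  simpa using h

end Pool.Agent.QB
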